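import Pool.Agent.D0H24.UT.Out

/-!
# Uniform prime tuplets `q r_j + 1` in random models of the primes: the exact range of the sieve

In sequential random models of the primes with a sieve the integers are decided one after the other,
no `n` with a prime factor at most `z(n)` is chosen, and the conditional probability, given the past,
that a number `n + 1` without prime factors at most `z(n + 1)` is chosen is asymptotic to
`∏_{q ≤ z(n + 1)} (1 - 1/q)⁻¹ / log n`.  No independence and no rate is assumed; `z` is monotone and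
at most `(log n) / 2`.

The question, with the full singular product over all primes and uniformly for `r_j ≤ b log x`, has
the answer yes almost surely if and only if `z(n) ≥ (log log n) ^ (1 - o(1))`.

* If this holds, the formula is even uniform for `r_j ≤ (log x) ^ C`, for every `C`.
* If not, then it fails for one form (`ℓ = 1`) and every `b`: for infinitely many `x` there is
  `r ≤ b log x` with at most `(1 - κ)` times the predicted number of `q`.

So the uniformity is the matter of the primes up to about `log log x`.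
-/

set_option autoImplicit false

open MeasureTheory Filter
open scoped Topology

namespace Pool.Agent.Results.MP_d018b2_nt.SieveThreshold

/-- `∏_{q ≤ x} (1 - 1/q)⁻¹`, `q` prime -/
noncomputable def W (x : ℕ) : ℝ := ∏ q ∈ (Finset.Icc 1 x).filter Nat.Prime, (1 - (q : ℝ)⁻¹)⁻¹

/-- Sequential random models with a sieve: the events `A n` (that `n` is chosen) are adapted to the
filtration `ℱ`; no `n` with a prime factor at most `z n` is chosen; and almost surely the conditional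
probability of `A (n + 1)` given `ℱ n`, times `log n / ∏_{q ≤ z(n + 1)} (1 - 1/q)⁻¹`, tends to `1` along
the `n` for which `n + 1` has no prime factor at most `z (n + 1)` -/
structure Model {Ω : Type} [mΩ : MeasurableSpace Ω] (μ : Measure Ω) (ℱ : Filtration ℕ mΩ)
    (A : ℕ → Set Ω) (z : ℕ → ℕ) : Prop where
  adapted : ∀ n, MeasurableSet[ℱ n] (A n)
  sieved : ∀ n, (∃ q, q.Prime ∧ q ≤ z n ∧ q ∣ n) → A n = ∅
  density : ∀ᵐ ω ∂μ, Tendsto (fun n : ℕ =>
    (μ[(A (n + 1)).indicator (fun _ => (1 : ℝ)) | ℱ n]) ω * Real.log n / W (z (n + 1)))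
    (atTop ⊓ 𝓟 {n : ℕ | ∀ q, q.Prime → q ≤ z (n + 1) → ¬ q ∣ n + 1}) (𝓝 1)

/-- `z(n) ≥ (log log n) ^ (1 - o(1))` -/
def Deep (z : ℕ → ℕ) : Prop :=
  ∀ δ : ℝ, 0 < δ → ∀ᶠ n : ℕ in atTop, Real.log (Real.log n) ^ (1 - δ) ≤ z n

/-- the number of residue classes `q mod p` with `p ∣ ∏ (q r + 1)` -/
def w (T : Finset ℕ) (p : ℕ) : ℕ := ((Finset.range p).filter (fun q => p ∣ ∏ r ∈ T, (q * r + 1))).card

/-- the singular product of the forms `q r + 1`, `r ∈ T`, over all primes -/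
noncomputable def S (T : Finset ℕ) : ℝ :=
  ∏' p : Nat.Primes, (1 - (w T p : ℝ) / ((p : ℕ) : ℝ)) / (1 - 1 / ((p : ℕ) : ℝ)) ^ T.card

/-- the number of `q ∈ [x, 2 x)` for which `q r + 1 ∈ P` for all `r ∈ T` -/
noncomputable def N (P : Set ℕ) (x : ℝ) (T : Finset ℕ) : ℕ :=
  {q : ℕ | x ≤ q ∧ (q : ℝ) < 2 * x ∧ ∀ r ∈ T, q * r + 1 ∈ P}.ncard

/-- the statement of the question for the set `P` in place of the primes -/
def Uniform (P : Set ℕ) : Prop :=
  ∀ b : ℝ, 0 < b → ∀ l : ℕ, ∀ ε : ℝ, 0 < ε → ∃ X : ℝ, ∀ x : ℝ, X ≤ x → ∀ T : Finset ℕ, T.card = l →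
    (∀ r ∈ T, 1 ≤ r ∧ (r : ℝ) ≤ b * Real.log x) →
    |(N P x T : ℝ) - x / Real.log x ^ l * S T| ≤ ε * (x / Real.log x ^ l * S T)

/-- the same with `r_j ≤ (log x) ^ C`, for all `C` -/
def PolyUniform (P : Set ℕ) : Prop :=
  ∀ C l : ℕ, ∀ ε : ℝ, 0 < ε → ∃ X : ℝ, ∀ x : ℝ, X ≤ x → ∀ T : Finset ℕ, T.card = l →
    (∀ r ∈ T, 1 ≤ r ∧ (r : ℝ) ≤ Real.log x ^ C) →
    |(N P x T : ℝ) - x / Real.log x ^ l * S T| ≤ ε * (x / Real.log x ^ l * S T)

lemma PolyUniform.uniform {P : Set ℕ} (h : PolyUniform P) : Uniform P := by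
  intro b hb l ε hε
  obtain ⟨X, hX⟩ := h 2 l ε hε
  obtain ⟨X', hX'⟩ := eventually_atTop.1 (Real.tendsto_log_atTop.eventually_ge_atTop (b + 1))
  refine ⟨max X X', fun x hx T hT hr => hX x ((le_max_left _ _).trans hx) T hT fun r hrT => ?_⟩
  have h1 := hX' x ((le_max_right _ _).trans hx)
  refine ⟨(hr r hrT).1, (hr r hrT).2.trans ?_⟩
  rw [sq]
  exact mul_le_mul_of_nonneg_right (by linarith) (by linarith)

section

variable {Ω : Type} [mΩ : MeasurableSpace Ω] {μ : Measure Ω} [IsProbabilityMeasure μ]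
    {ℱ : Filtration ℕ mΩ} {A : ℕ → Set Ω} {z : ℕ → ℕ}

lemma prof (h : Model μ ℱ A z) : ∀ᵐ ω ∂μ, ∀ ε : ℝ, 0 < ε → ∀ᶠ n : ℕ in atTop,
    |Pool.Agent.R528.RM.dens μ ℱ A n ω - Pool.Agent.D0H60.RMG.dn z (n + 1)| ≤
      ε * Pool.Agent.D0H60.RMG.dn z (n + 1) := by
  refine Pool.Agent.D0H60.RMG.profile (μ := μ) (ℱ := ℱ) (A := A) z ?_ h.density
  intro n hn
  unfold Pool.Agent.D0H60.RMG.Rough at hn
  push Not at hn
  exact h.sieved n hn

end

/-- **The exact range of the sieve.**  Let `A` be a sequential random model with a sieve, `z` monotone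
with `z(n) ≤ (log n) / 2` for large `n`, and `P` the random set `{n | A n occurs}`.

(1) If `z(n) ≥ (log log n) ^ (1 - o(1))`, then almost surely for all `C`, `ℓ` the number of the
`q ∈ [x, 2 x)` with `q r_1 + 1, ..., q r_ℓ + 1 ∈ P` is `(1 + o(1)) x / (log x) ^ ℓ` times the full
singular product, uniformly for distinct positive integers `r_j ≤ (log x) ^ C`.

(2) If not, there is `κ > 0` such that almost surely for every `b > 0` there are arbitrarily large `x`
and `r ≤ b log x` for which the number of the `q ∈ [x, 2 x)` with `q r + 1 ∈ P` is at most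
`(1 - κ)` times the prediction.

(3) So almost surely the statement of the question holds for `P` if and only if
`z(n) ≥ (log log n) ^ (1 - o(1))`. -/
theorem result {Ω : Type} [mΩ : MeasurableSpace Ω] (μ : Measure Ω) [IsProbabilityMeasure μ]
    (ℱ : Filtration ℕ mΩ) (A : ℕ → Set Ω) (z : ℕ → ℕ) (hM : Model μ ℱ A z) (hz : Monotone z)
    (hz2 : ∀ᶠ n : ℕ in atTop, (z n : ℝ) ≤ Real.log n / 2) :
    (Deep z → ∀ᵐ ω ∂μ, PolyUniform {n | ω ∈ A n}) ∧
    (¬ Deep z → ∃ κ : ℝ, 0 < κ ∧ ∀ᵐ ω ∂μ, ∀ b : ℝ, 0 < b → ∃ᶠ x : ℕ in atTop, ∃ r : ℕ, 1 ≤ r ∧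
      (r : ℝ) ≤ b * Real.log x ∧ (N {n | ω ∈ A n} x {r} : ℝ) ≤ (1 - κ) * (x / Real.log x * S {r})) ∧
    (∀ᵐ ω ∂μ, Uniform {n | ω ∈ A n} ↔ Deep z) := by
  have hprof := prof hM
  have hcop : ∀ n, ¬ Pool.Agent.D0H60.RMG.Rough z n → A n = ∅ := by
    intro n hn
    unfold Pool.Agent.D0H60.RMG.Rough at hn
    push Not at hn
    exact hM.sieved n hn
  have h1 : Deep z → ∀ᵐ ω ∂μ, PolyUniform {n | ω ∈ A n} := by
    intro hdeep
    filter_upwards [Pool.Agent.D0H24.UT.law_pos (μ := μ) hM.adapted z hz hz2 hdeep hcop hprof] with ω hω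
    intro C l ε hε
    have h2 := Pool.Agent.D0H24.UT.real_of_nat {n | ω ∈ A n} C l (fun ε hε => hω C l ε hε) ε hε
    obtain ⟨X, hX⟩ := eventually_atTop.1 h2
    exact ⟨X, fun x hx T hT hr => hX x hx T hr hT⟩
  have h2 : ¬ Deep z → ∃ κ : ℝ, 0 < κ ∧ ∀ᵐ ω ∂μ, ∀ b : ℝ, 0 < b → ∃ᶠ x : ℕ in atTop, ∃ r : ℕ, 1 ≤ r ∧
      (r : ℝ) ≤ b * Real.log x ∧ (N {n | ω ∈ A n} x {r} : ℝ) ≤ (1 - κ) * (x / Real.log x * S {r}) := by
    intro hdeep
    obtain ⟨κ, hκ, h3⟩ := Pool.Agent.D0H24.UT.law_neg (μ := μ) hM.adapted z hz hz2 hdeep hprof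
    refine ⟨κ, hκ, ?_⟩
    filter_upwards [h3] with ω hω b hb
    refine (hω b hb).mono ?_
    rintro x ⟨r, hr1, hr2, hr3⟩
    refine ⟨r, hr1, hr2, ?_⟩
    have e : N {n | ω ∈ A n} x {r} = Pool.Agent.D0H24.UT.Nn {n | ω ∈ A n} x {r} :=
      Pool.Agent.D0H24.UT.Nr_nat _ _ _
    rw [e]
    exact hr3
  refine ⟨h1, h2, ?_⟩
  by_cases hdeep : Deep z
  · filter_upwards [h1 hdeep] with ω hω
    exact ⟨fun _ => hdeep, fun _ => hω.uniform⟩
  · obtain ⟨κ, hκ, h3⟩ := h2 hdeep
    filter_upwards [h3] with ω hω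
    refine ⟨fun hU => ?_, fun hc => absurd hc hdeep⟩
    exfalso
    obtain ⟨X, hX⟩ := hU 1 one_pos 1 (κ / 2) (by positivity)
    have h4 : ∀ᶠ x : ℕ in atTop, X ≤ (x : ℝ) := tendsto_natCast_atTop_atTop.eventually_ge_atTop X
    obtain ⟨x, ⟨r, hr1, hr2, hr3⟩, hx, hx2⟩ :=
      ((hω 1 one_pos).and_eventually (h4.and (eventually_ge_atTop 2))).exists
    have h5 := hX x hx {r} (by simp) (by
      intro s hs
      rw [Finset.mem_singleton] at hs
      rw [hs]
      exact ⟨hr1, hr2⟩)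
    rw [pow_one] at h5
    have hS : 0 < S {r} := Pool.Agent.D0H24.UT.S_single_pos r hr1
    have hlog : 0 < Real.log (x : ℝ) := Real.log_pos (by
      have : 1 < x := by omega
      exact_mod_cast this)
    have hx0 : (0 : ℝ) < x := by
      have : 0 < x := by omega
      exact_mod_cast this
    have hMS : 0 < (x : ℝ) / Real.log x * S {r} := by positivity
    rw [abs_le] at h5
    nlinarith [h5.1]

end Pool.Agent.Results.MP_d018b2_nt.SieveThreshold
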