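import Pool.Agent.D0H51.SS.Low2
import Pool.Agent.Results.MP_d018b2_nt.BoundedFactors

/-!
# Many simultaneous primes `q r_j + 1` up to bounded factors, with `q` in a sparse sequence

For every `ℓ = l + 1 ≥ 1` there is `C` such that for all positive integers `r_1, ..., r_ℓ` there are factors
`1 ≤ f_j ≤ C`, with distinct products `f_j r_j`, such that for every real `h ≥ 1` and almost every real `α > 0`, for
every `η > 0`, there are infinitely many `N` with at least `N ^ (1 - η)` integers `n ≤ N` for which, with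
`q = ⌊α n ^ h⌋`, all the `q f_j r_j + 1` are prime.

Proof: the starting result BoundedFactors (all integers `q`) and the transfer of lower bounds for the counting function
of an arbitrary set to almost all sequences `⌊α n ^ h⌋` (`Pool.Agent.D0H51.SS.low_pow`, from the universal sampling
theorem of helper91).
-/

set_option autoImplicit false

namespace Pool.Agent.Results.MP_d018b2_nt.SparseMultipliers

open Filter MeasureTheory Topology Finset

/-- all the numbers `q t_j + 1` are prime -/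
def AllPrime {l : ℕ} (t : Fin (l + 1) → ℕ) (q : ℕ) : Prop := ∀ j, (q * t j + 1).Prime

open Classical in
/-- **Main result.** -/
theorem result (l : ℕ) : ∃ C : ℕ, ∀ r : Fin (l + 1) → ℕ, (∀ j, 1 ≤ r j) →
    ∃ f : Fin (l + 1) → ℕ, (∀ j, 1 ≤ f j ∧ f j ≤ C) ∧ Function.Injective (fun j => f j * r j) ∧
    ∀ h : ℝ, 1 ≤ h → ∀ᵐ α : ℝ, 0 < α → ∀ η : ℝ, 0 < η → ∃ᶠ N : ℕ in atTop, (N : ℝ) ^ (1 - η) ≤
      (((Icc 1 N).filter (fun n : ℕ => AllPrime (fun j => f j * r j) ⌊α * (n : ℝ) ^ h⌋₊)).card : ℝ) := by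
  obtain ⟨C, hC⟩ := Pool.Agent.Results.MP_d018b2_nt.BoundedFactors.result l
  refine ⟨C, fun r hr => ?_⟩
  obtain ⟨f, h1, h2, h3⟩ := hC r hr
  refine ⟨f, h1, h2, fun h hh => ?_⟩
  filter_upwards [Pool.Agent.D0H51.SS.low_pow h hh
    (fun _ => {q : ℕ | AllPrime (fun j => f j * r j) q})] with α hα hα0 η hη
  refine hα hα0 0 (fun η' hη' hη1 => ?_) η hη
  have h5 := h3 (η' / 2) (by positivity)
  have ht : Tendsto (fun x : ℝ => ⌊2 * x⌋₊) atTop atTop :=
    tendsto_nat_floor_atTop.comp (tendsto_id.const_mul_atTop (by norm_num : (0 : ℝ) < 2))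
  have hbig : ∀ᶠ x : ℝ in atTop, 2 ≤ x ^ (η' / 2) :=
    (tendsto_rpow_atTop (by positivity)).eventually_ge_atTop 2
  refine ht.frequently ((h5.and_eventually (hbig.and (eventually_ge_atTop (1 : ℝ)))).mono ?_)
  rintro x ⟨hx, hx2, hx1⟩
  have hx0 : 0 < x := by linarith
  have h6 : (⌊2 * x⌋₊ : ℝ) ^ (1 - η') ≤ x ^ (1 - η' / 2) := by
    calc (⌊2 * x⌋₊ : ℝ) ^ (1 - η') ≤ (2 * x) ^ (1 - η') :=
          Real.rpow_le_rpow (Nat.cast_nonneg _) (Nat.floor_le (by linarith)) (by linarith)
      _ = (2 : ℝ) ^ (1 - η') * x ^ (1 - η') := Real.mul_rpow (by norm_num) hx0.le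
      _ ≤ x ^ (η' / 2) * x ^ (1 - η') := by
          have h7 : (2 : ℝ) ^ (1 - η') ≤ (2 : ℝ) ^ (1 : ℝ) :=
            Real.rpow_le_rpow_of_exponent_le (by norm_num) (by linarith)
          rw [Real.rpow_one] at h7
          have h8 : 0 ≤ x ^ (1 - η') := by positivity
          exact mul_le_mul_of_nonneg_right (h7.trans hx2) h8
      _ = x ^ (1 - η' / 2) := by
          rw [← Real.rpow_add hx0]
          congr 1
          ring
  refine h6.trans (hx.trans (Nat.cast_le.2 ?_))
  rw [← Set.ncard_coe_finset]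
  refine Set.ncard_le_ncard ?_ (Finset.finite_toSet _)
  rintro q ⟨h7, h8, h9⟩
  rw [Finset.mem_coe, Finset.mem_filter, Finset.mem_range]
  exact ⟨Nat.lt_succ_of_le (Nat.le_floor h8.le), h9⟩

end Pool.Agent.Results.MP_d018b2_nt.SparseMultipliers
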