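import Pool.Agent.D0H51.SS.TupB

/-!
# MP_d018b2_nt: averages of the uniform tuplet formula along almost every sparse sequence

For every real `h ≥ 1` and almost every real `α > 0`, with `X = α M ^ h`: for the multipliers `q = ⌊α m ^ h⌋`, `m ≤ M`,
and every set `A` of positive integers `r ≤ (log M) ^ C`:

(1) if `∑ r / φ(r) ≥ lam * log X`, `lam > l - 1`, the sum over the `l`-element subsets `T` of `A` of the number of
`m ≤ M` with all `⌊α m ^ h⌋ r + 1`, `r ∈ T`, prime is at least `θ` times the sum of the expected main terms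
`S(T) M / (log X) ^ l`, up to `M ^ (1 - c)`, for every `θ < ∏ (1 - i / lam)`; without this error if `A` has at least
`lam * log X` elements;

(2) if `A` has at least `lam * log X` elements, `lam > 0` arbitrary, the `T` for which this number is at least
`κ S(T) M / (log X) ^ l` carry at least the proportion `4 ^ (1 - l) - ε` of the sum of the `S(T)`.

Proof: the starting theorems `SharpAverage` and `QuarterAtEveryScale` (all integers `q`, dyadic windows); the universal
sampling theorem of helper91, which saves a power of `M` for each `T`, uniformly (the `T` are coded by integers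
`≤ M ^ c`); and a partial summation which recovers the exact weight `M` from the dyadic windows
(`Pool.Agent.D0H51.SS.sharp_of_windows`).
-/

set_option autoImplicit false

namespace Pool.Agent.Results.MP_d018b2_nt.SparseSharpAverage

open Finset MeasureTheory Filter Topology
open Pool.Agent.Results.MP_d018b2_nt.SharpAverage (S)
open Pool.Agent.D0H51.SS (NS)

open Classical in
/-- **Main result.** -/
theorem result (k : ℕ) (h : ℝ) (hh : 1 ≤ h) :
    (∃ c : ℝ, 0 < c ∧ ∀ᵐ α : ℝ, 0 < α →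
      ∀ lam θ C : ℝ, (k : ℝ) < lam → 0 ≤ C → θ < ∏ i ∈ range k, (1 - (i + 1 : ℝ) / lam) →
        ∀ᶠ M : ℕ in atTop, ∀ A : Finset ℕ, (∀ r ∈ A, 1 ≤ r ∧ (r : ℝ) ≤ Real.log M ^ C) →
          (lam * Real.log (α * (M : ℝ) ^ h) ≤ ∑ r ∈ A, (r : ℝ) / Nat.totient r →
            θ * (M / Real.log (α * (M : ℝ) ^ h) ^ (k + 1)) * ∑ T ∈ A.powersetCard (k + 1), S T -
              (M : ℝ) ^ (1 - c) ≤ ∑ T ∈ A.powersetCard (k + 1), (NS h α M T : ℝ)) ∧
          (lam * Real.log (α * (M : ℝ) ^ h) ≤ A.card →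
            θ * (M / Real.log (α * (M : ℝ) ^ h) ^ (k + 1)) * ∑ T ∈ A.powersetCard (k + 1), S T ≤
              ∑ T ∈ A.powersetCard (k + 1), (NS h α M T : ℝ))) ∧
    (1 ≤ k → ∃ κ : ℝ → ℝ → ℝ, (∀ ε lam, 0 < ε → 0 < lam → 0 < κ ε lam) ∧ ∀ᵐ α : ℝ, 0 < α →
      ∀ ε lam C : ℝ, 0 < ε → 0 < lam → 0 ≤ C →
        ∀ᶠ M : ℕ in atTop, ∀ A : Finset ℕ, (∀ r ∈ A, 1 ≤ r ∧ (r : ℝ) ≤ Real.log M ^ C) →
          lam * Real.log (α * (M : ℝ) ^ h) ≤ A.card →
            ((1 / 4 : ℝ) ^ k - ε) * ∑ T ∈ A.powersetCard (k + 1), S T ≤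
              ∑ T ∈ (A.powersetCard (k + 1)).filter (fun T =>
                κ ε lam * S T * (M / Real.log (α * (M : ℝ) ^ h) ^ (k + 1)) ≤ NS h α M T), S T) :=
  ⟨Pool.Agent.D0H51.SS.sparse_sharp k h hh, fun hk => Pool.Agent.D0H51.SS.sparse_quarter k hk h hh⟩

end Pool.Agent.Results.MP_d018b2_nt.SparseSharpAverage
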