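import Mathlib
import Pool.Agent.D0H76.UG.Fin

/-!
# Uniform prime tuplets with generic real coefficients, alone and together with a genuine tuplet

The question asks for the number of the integers `q ∈ [x, 2x)` for which all `q r_i + 1` are prime, uniformly for
`r_i ≤ b log x`. Replace `q r_j + 1` by `⌊α_j s_j q⌋ + 1` with integers `s_j ≤ (log x) ^ B` (for `α_j = 1` this is
`q s_j + 1`). For almost every `α ∈ (0, ∞) ^ l`, uniformly in the `s_j`:

* the number of the `q ∈ [x, 2x)` for which all `⌊α_j s_j q⌋ + 1` are prime is asymptotic to `x / (log x) ^ l`;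
* the number of the `q ∈ [x, 2x)` for which `q r + 1` and all `⌊α_j s_j q⌋ + 1` are prime is asymptotic to
  `(r / φ(r)) x / (log x) ^ (l + 1)`, uniformly also for `r ≤ (log x) ^ B`;
* for any number `k` of genuine forms `q r_i + 1`, `r_i ≤ (log x) ^ B`, and any set of integers `A_m`,
  `m ≤ (log x) ^ B`, the conditions that the `⌊α_j s_j q⌋ + 1` are prime divide the number of the `q ∈ A_m ∩ [x, 2x)`
  with all `q r_i + 1` prime by `(log x) ^ l`, up to an error `x / (log x) ^ K`, `K` arbitrary.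

Proof: the mean square over a generic dilation from `Pool.Agent.D0H91.MG` (Vinogradov-Korobov, moments of Dirichlet
polynomials with arbitrary coefficients, Plancherel) saves any power of the logarithm with a threshold independent of
the weights, so it can be summed over families of `(log x) ^ D` weights; an integral dilation `s` is a change of the
weights, `q = m / s`; then Borel-Cantelli for families, Abel summation, and induction on `l` by Fubini's theorem. The
case of one genuine form uses the theorem of Siegel and Walfisz.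
-/

set_option autoImplicit false

open MeasureTheory Filter

namespace Pool.Agent.Results.MP_d018b2_nt.UniformGenericDilations

/-- The number of the integers `q ∈ A`, `x ≤ q < 2x`, for which all `q r_i + 1` are prime. -/
noncomputable def M (x : ℝ) (A : Set ℕ) {k : ℕ} (r : Fin k → ℕ) : ℕ :=
  {q : ℕ | x ≤ q ∧ (q : ℝ) < 2 * x ∧ (q ∈ A ∧ ∀ i, (q * r i + 1).Prime)}.ncard

/-- The number of the integers `q ∈ A`, `x ≤ q < 2x`, for which all `q r_i + 1` and all `⌊α_j s_j q⌋ + 1` are prime. -/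
noncomputable def N (x : ℝ) (A : Set ℕ) {k l : ℕ} (r : Fin k → ℕ) (α : Fin l → ℝ) (s : Fin l → ℕ) : ℕ :=
  {q : ℕ | x ≤ q ∧ (q : ℝ) < 2 * x ∧ ((q ∈ A ∧ ∀ i, (q * r i + 1).Prime) ∧
    ∀ j, (⌊α j * s j * q⌋₊ + 1).Prime)}.ncard

/-- Let `A_0, A_1, …` be sets of integers. For almost every `α ∈ (0, ∞) ^ l`, for all `B`, `K`, `ε > 0` and all large
real `x`, for all integers `s_j ∈ [1, (log x) ^ B]`: (1) for all `m ≤ (log x) ^ B`, `k ≤ B` and integers
`r_i ∈ [1, (log x) ^ B]`, `i < k`, the number `N` of the `q ∈ A_m ∩ [x, 2x)` with all `q r_i + 1` and all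
`⌊α_j s_j q⌋ + 1` prime is `(1 ± ε) M / (log x) ^ l` up to `x / (log x) ^ K`, `M` the number of the
`q ∈ A_m ∩ [x, 2x)` with all `q r_i + 1` prime; (2) the number of the `q ∈ [x, 2x)` with all `⌊α_j s_j q⌋ + 1` prime is
`(1 ± ε) x / (log x) ^ l`; (3) for all integers `r ∈ [1, (log x) ^ B]` the number of the `q ∈ [x, 2x)` with `q r + 1`
and all `⌊α_j s_j q⌋ + 1` prime is `(1 ± ε) (r / φ(r)) x / (log x) ^ (l + 1)`. -/
theorem result (l : ℕ) (A : ℕ → Set ℕ) : ∀ᵐ α : Fin l → ℝ, (∀ j, 0 < α j) → ∀ (B K : ℕ) (ε : ℝ), 0 < ε →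
    ∃ X : ℝ, ∀ x : ℝ, X ≤ x → ∀ s : Fin l → ℕ, (∀ j, 1 ≤ s j ∧ (s j : ℝ) ≤ Real.log x ^ B) →
      (∀ m k : ℕ, (m : ℝ) ≤ Real.log x ^ B → k ≤ B →
        ∀ r : Fin k → ℕ, (∀ i, 1 ≤ r i ∧ (r i : ℝ) ≤ Real.log x ^ B) →
        |(N x (A m) r α s : ℝ) - M x (A m) r / Real.log x ^ l| ≤
          ε * (M x (A m) r / Real.log x ^ l) + x / Real.log x ^ K) ∧
      |({q : ℕ | x ≤ q ∧ (q : ℝ) < 2 * x ∧ ∀ j, (⌊α j * s j * q⌋₊ + 1).Prime}.ncard : ℝ) - x / Real.log x ^ l| ≤
        ε * (x / Real.log x ^ l) ∧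
      ∀ r : ℕ, 1 ≤ r → (r : ℝ) ≤ Real.log x ^ B →
        |({q : ℕ | x ≤ q ∧ (q : ℝ) < 2 * x ∧ (q * r + 1).Prime ∧ ∀ j, (⌊α j * s j * q⌋₊ + 1).Prime}.ncard : ℝ) -
          (r : ℝ) / Nat.totient r * (x / Real.log x ^ (l + 1))| ≤
          ε * ((r : ℝ) / Nat.totient r * (x / Real.log x ^ (l + 1))) :=
  Pool.Agent.D0H76.UG.final l A

end Pool.Agent.Results.MP_d018b2_nt.UniformGenericDilations
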